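import Pool.Agent.Y58.HT.NE
import Pool.Agent.Y58.HT.AV
import Pool.Agent.Y58.HT.Asm
import Pool.Agent.Y909.HT.EQ
import Pool.Agent.Y865.HT.Contr
import Pool.Agent.Y975.HT.Fx3
import Pool.Agent.Y523.HT.AVT
import Pool.Agent.Y662.HT.Ave
import Pool.Agent.Y74.HT.Avk
import Pool.Agent.Y250.HT.Kol
import Pool.Agent.Y396.HT.Red
import Pool.Agent.Y396.HT.NL
import Pool.Agent.Y372.HT.Eig
import Pool.Agent.Y657.HT.Fin
import Pool.Agent.Y348.HT.Nf4
import Pool.Agent.Y659.HT.VS4
import Pool.Agent.Y288.HT.Elem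
import Pool.Agent.Y401.HT.Bctr
import Pool.Agent.Y569.HT.Psl
import Pool.Agent.Y813.HT.Desc

/-!
High transitivity and transitivity degree of all countable subgroups of `PGL(2,K)`.

Project HT of helper58; parts by helpers 909 (EQ), 865 (CON), 975 (FX3, LF), 523 (AVT), 662 (AVE),
74 (AVK), 250 (KOL), 396 (RED, NL), 372 (EIG), 657 (FIN), 348 (NF4), 659 (VS4), 288 (ELEM),
401 (BC, TR), 569 (PSL), 813 (DESC). It builds on the starting library `Pool.Agent.H361R3.PGL`.
-/

universe u

open Matrix H361P Pool.Agent.Y58.HT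
open scoped MatrixGroups

namespace Pool.Agent.Y58.HT

theorem h_ne : S_NE.{u} :=
  t_ne Pool.Agent.Y865.HT.t_con Pool.Agent.Y909.HT.t_eq Pool.Agent.Y975.HT.t_fx3

theorem h_dich (K : Type u) [Field K] (G : Subgroup (PGL(2, K))) [Countable G] [Infinite G] :
    (¬ LocFinite G ∧ ¬ VirtSolvable G → IsHighlyTransitiveGroup G ∧ td G = ⊤) ∧
    (LocFinite G ∨ VirtSolvable G → ¬ IsHighlyTransitiveGroup G ∧ td G ≤ 3) :=
  dichotomy (t_av Pool.Agent.Y523.HT.t_avt Pool.Agent.Y662.HT.t_ave Pool.Agent.Y74.HT.t_avk) h_ne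
    (Pool.Agent.Y975.HT.t_lf (Pool.Agent.Y657.HT.t_fin Pool.Agent.Y250.HT.t_kol
      Pool.Agent.Y396.HT.t_red Pool.Agent.Y372.HT.t_eig Pool.Agent.Y396.HT.t_nl))
    Pool.Agent.Y288.HT.t_elem Pool.Agent.Y401.HT.t_bc Pool.Agent.Y401.HT.t_tr
    Pool.Agent.Y813.HT.t_desc Pool.Agent.Y348.HT.t_nf4 Pool.Agent.Y659.HT.t_vs4 K G

theorem locFinite_of_alg {K : Type u} [Field K] (hK : AlgebraicOverFiniteField K)
    (G : Subgroup (PGL(2, K))) : LocFinite G := by
  intro S hS
  have h1 := closure_finite hK (G.subtype '' S) (hS.image _)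
  have h2 : (Subgroup.closure S).map G.subtype = Subgroup.closure (G.subtype '' S) :=
    MonoidHom.map_closure _ _
  rw [← h2] at h1
  exact Finite.of_injective _
    ((Subgroup.closure S).equivMapOfInjective G.subtype G.subtype_injective).injective

theorem infinite_field {K : Type u} [Field K] (G : Subgroup (PGL(2, K))) [Infinite G] :
    Infinite K := by
  by_contra h
  rw [not_infinite_iff_finite] at h
  have h1 : Finite (Matrix (Fin 2) (Fin 2) K) := inferInstanceAs (Finite (Fin 2 → Fin 2 → K))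
  have h2 : Finite (GL (Fin 2) K) :=
    Finite.of_injective (fun g : GL (Fin 2) K => g.val) (fun a b h => Units.ext h)
  have h3 : Finite (PGL(2, K)) := Finite.of_surjective _ ProjGenLinGroup.mk_surjective
  have h4 : Finite G := inferInstance
  exact not_finite G

end Pool.Agent.Y58.HT

/-- Let `K` be a field. A countable infinite subgroup `G` of `PGL(2,K)` is highly transitive if it
is neither locally finite nor virtually solvable; otherwise it has no faithful `4`-transitive action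
(`td G ≤ 3`). If `G` contains `PSL(2,K)`, the first case occurs exactly when `K` is not algebraic
over a finite field. For countably infinite `K` this gives `td(PGL(2,K))`. -/
theorem Pool.Agent.Results.MP_57df8f_al.CountableSubgroups.result (K : Type u) [Field K] :
    (∀ (G : Subgroup (PGL(2, K))) [Countable G] [Infinite G],
      (¬ LocFinite G ∧ ¬ VirtSolvable G → IsHighlyTransitiveGroup G ∧ td G = ⊤) ∧
      (LocFinite G ∨ VirtSolvable G → ¬ IsHighlyTransitiveGroup G ∧ td G ≤ 3) ∧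
      ((∀ m : SL(2, K), ProjGenLinGroup.mk (m : GL (Fin 2) K) ∈ G) →
        (AlgebraicOverFiniteField K → ¬ IsHighlyTransitiveGroup G ∧ 2 ≤ td G ∧ td G ≤ 3) ∧
        (¬ AlgebraicOverFiniteField K → IsHighlyTransitiveGroup G ∧ td G = ⊤))) ∧
    (Countable K → Infinite K →
      (AlgebraicOverFiniteField K →
        ¬ IsHighlyTransitiveGroup (PGL(2, K)) ∧ td (PGL(2, K)) = 3) ∧
      (¬ AlgebraicOverFiniteField K →
        IsHighlyTransitiveGroup (PGL(2, K)) ∧ td (PGL(2, K)) = ⊤)) := by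
  refine ⟨?_, ?_⟩
  · intro G _ _
    obtain ⟨h1, h2⟩ := h_dich K G
    refine ⟨h1, h2, fun hG => ⟨fun hK => ?_, fun hK => ?_⟩⟩
    · haveI := infinite_field G
      obtain ⟨h3, h4⟩ := h2 (Or.inl (locFinite_of_alg hK G))
      exact ⟨h3, (between h_ne Pool.Agent.Y569.HT.t_psl K G hG).1, h4⟩
    · haveI := infinite_field G
      have h3 := (between h_ne Pool.Agent.Y569.HT.t_psl K G hG).2 hK
      exact ⟨h3, td_eq_top _ h3⟩
  · intro _ _
    exact ⟨fun h => ⟨not_ht h, td_eq_three h⟩, fun h => ⟨pgl_ht h, td_eq_top _ (pgl_ht h)⟩⟩
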